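import Pool.Agent.TH882.I9

/-!
Local factors of systems of linear forms `n_j ± p`: the truncated singular series as a number of
admissible classes, and the comparison of all its partial products with the truncated one for
almost all vectors of constant terms.
-/

set_option autoImplicit false

open Finset Filter Topology

namespace Pool.Agent.U215.Sim

open Pool.Agent.H361R2.PP
open Pool.Agent.TH882.IS
open Pool.Agent.TH882.PC (wX wX_one wX_pos)

variable {r : ℕ}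

open Classical in
/-- the number of the residue classes `b` modulo `l` with `b = 0` or `l ∣ n_j + σ_j b` for some `j` -/
noncomputable def nu (σ : Fin r → ℤ) (n : Fin r → ℕ) (l : ℕ) : ℕ :=
  ((range l).filter (fun b : ℕ => b = 0 ∨ ∃ j, (l : ℤ) ∣ (n j : ℤ) + σ j * b)).card

/-- the local factor at `l` -/
noncomputable def fac (σ : Fin r → ℤ) (n : Fin r → ℕ) (l : ℕ) : ℝ :=
  (1 - (nu σ n l : ℝ) / l) / (1 - 1 / (l : ℝ)) ^ (r + 1)

/-- the partial products of the singular series -/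
noncomputable def sing (σ : Fin r → ℤ) (n : Fin r → ℕ) (y : ℕ) : ℝ :=
  ∏ l ∈ (range (y + 1)).filter Nat.Prime, fac σ n l

lemma nu_le (σ : Fin r → ℤ) (n : Fin r → ℕ) (l : ℕ) : nu σ n l ≤ l := by
  unfold nu
  refine (card_filter_le _ _).trans ?_
  rw [card_range]

lemma nu_pos (σ : Fin r → ℤ) (n : Fin r → ℕ) (l : ℕ) (hl : 0 < l) : 1 ≤ nu σ n l := by
  classical
  unfold nu
  rw [Nat.one_le_iff_ne_zero, ← Nat.pos_iff_ne_zero, card_pos]
  exact ⟨0, by rw [mem_filter, mem_range]; exact ⟨hl, Or.inl rfl⟩⟩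

lemma dvd_signs (l : ℕ) (s t : ℤ) (hs : s = 1 ∨ s = -1) (ht : t = 1 ∨ t = -1) (m k b : ℤ)
    (h1 : (l : ℤ) ∣ m + s * b) (h2 : (l : ℤ) ∣ k + t * b) : (l : ℤ) ∣ s * m - t * k := by
  have e : s * m - t * k = s * (m + s * b) - t * (k + t * b) := by
    rcases hs with rfl | rfl <;> rcases ht with rfl | rfl <;> ring
  rw [e]
  exact (h1.mul_left _).sub (h2.mul_left _)

/-- at a prime which divides none of the numbers and differences all the classes are distinct -/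
lemma nu_big (σ : Fin r → ℤ) (hσ : ∀ j, σ j = 1 ∨ σ j = -1) (n : Fin r → ℕ) (l : ℕ) (hl : 0 < l)
    (h1 : ∀ j, ¬ l ∣ n j) (h2 : ∀ i j, i ≠ j → ¬ (l : ℤ) ∣ σ i * n i - σ j * n j) :
    r + 1 ≤ nu σ n l := by
  classical
  have hl0 : (0 : ℤ) < l := by exact_mod_cast hl
  set b : Fin r → ℕ := fun j => ((-(σ j) * (n j : ℤ)) % (l : ℤ)).toNat with hb
  have hbz : ∀ j, ((b j : ℕ) : ℤ) = (-(σ j) * (n j : ℤ)) % (l : ℤ) := by
    intro j
    rw [hb]
    exact Int.toNat_of_nonneg (Int.emod_nonneg _ hl0.ne')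
  have hbl : ∀ j, b j < l := by
    intro j
    have := Int.emod_lt_of_pos (-(σ j) * (n j : ℤ)) hl0
    have h3 := hbz j
    omega
  have hbd : ∀ j, (l : ℤ) ∣ (n j : ℤ) + σ j * (b j : ℤ) := by
    intro j
    have h3 : (l : ℤ) ∣ (-(σ j) * (n j : ℤ)) - (b j : ℤ) := by
      rw [hbz j]
      exact Int.dvd_self_sub_emod
    have e : (n j : ℤ) + σ j * (b j : ℤ) = -(σ j) * ((-(σ j) * (n j : ℤ)) - (b j : ℤ)) := by
      rcases hσ j with h | h <;> rw [h] <;> ring
    rw [e]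
    exact h3.mul_left _
  have hb0 : ∀ j, b j ≠ 0 := by
    intro j h0
    have h3 := hbd j
    rw [h0] at h3
    simp only [Nat.cast_zero, mul_zero, add_zero] at h3
    exact h1 j (by exact_mod_cast h3)
  have hinj : Function.Injective b := by
    intro i j hij
    by_contra hne
    apply h2 i j hne
    have h3 := hbd j
    rw [← hij] at h3
    exact dvd_signs l (σ i) (σ j) (hσ i) (hσ j) _ _ _ (hbd i) h3
  have hsub : insert 0 (univ.image b) ⊆
      (range l).filter (fun c : ℕ => c = 0 ∨ ∃ j, (l : ℤ) ∣ (n j : ℤ) + σ j * c) := by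
    intro c hc
    rw [mem_insert, mem_image] at hc
    rw [mem_filter, mem_range]
    rcases hc with rfl | ⟨j, -, rfl⟩
    · exact ⟨hl, Or.inl rfl⟩
    · exact ⟨hbl j, Or.inr ⟨j, hbd j⟩⟩
  have h4 := card_le_card hsub
  rw [card_insert_of_notMem (by
    rw [mem_image]
    rintro ⟨j, -, h⟩
    exact hb0 j h), card_image_of_injective _ hinj, card_univ, Fintype.card_fin] at h4
  unfold nu
  convert h4 using 2

lemma fac_nonneg (σ : Fin r → ℤ) (n : Fin r → ℕ) (l : ℕ) (hl : l.Prime) : 0 ≤ fac σ n l := by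
  have hl0 : (0 : ℝ) < l := by exact_mod_cast hl.pos
  have hl1 : (1 : ℝ) < l := by exact_mod_cast hl.one_lt
  unfold fac
  apply div_nonneg
  · rw [sub_nonneg, div_le_one hl0]
    exact_mod_cast nu_le σ n l
  · apply pow_nonneg
    rw [sub_nonneg, div_le_one hl0]
    exact hl1.le

/-- a factor without coincidences is at most one -/
lemma fac_le_one (σ : Fin r → ℤ) (n : Fin r → ℕ) (l : ℕ) (hl : l.Prime) (h : r + 1 ≤ nu σ n l) :
    fac σ n l ≤ 1 := by
  have hl0 : (0 : ℝ) < l := by exact_mod_cast hl.pos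
  have hl1 : (1 : ℝ) < l := by exact_mod_cast hl.one_lt
  have hq : 0 < 1 - 1 / (l : ℝ) := by
    rw [sub_pos, div_lt_one hl0]
    exact hl1
  have hq2 : 1 / (l : ℝ) ≤ 1 := by
    rw [div_le_one hl0]
    exact hl1.le
  unfold fac
  rw [div_le_one (by positivity)]
  have h1 := one_add_mul_le_pow (a := -(1 / (l : ℝ))) (by linarith) (r + 1)
  have h2 : ((r + 1 : ℕ) : ℝ) ≤ nu σ n l := by exact_mod_cast h
  have h3 : ((r + 1 : ℕ) : ℝ) / l ≤ (nu σ n l : ℝ) / l := div_le_div_of_nonneg_right h2 hl0.le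
  have e1 : 1 + ((r + 1 : ℕ) : ℝ) * (-(1 / (l : ℝ))) = 1 - ((r + 1 : ℕ) : ℝ) / l := by ring
  have e2 : (1 + -(1 / (l : ℝ))) = 1 - 1 / (l : ℝ) := by ring
  rw [e1, e2] at h1
  linarith

/-- every factor is at most `exp (2 r / l)` -/
lemma fac_le_exp (σ : Fin r → ℤ) (n : Fin r → ℕ) (l : ℕ) (hl : l.Prime) :
    fac σ n l ≤ Real.exp (2 * r * (1 / (l : ℝ))) := by
  have hl0 : (0 : ℝ) < l := by exact_mod_cast hl.pos
  have hl2 : (2 : ℝ) ≤ l := by exact_mod_cast hl.two_le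
  have hq : 0 < 1 - 1 / (l : ℝ) := by
    rw [sub_pos, div_lt_one hl0]
    linarith
  have h1 : (1 : ℝ) ≤ nu σ n l := by exact_mod_cast nu_pos σ n l hl.pos
  have h2 : fac σ n l ≤ (1 - 1 / (l : ℝ)) / (1 - 1 / (l : ℝ)) ^ (r + 1) := by
    unfold fac
    apply div_le_div_of_nonneg_right _ (by positivity)
    have : 1 / (l : ℝ) ≤ (nu σ n l : ℝ) / l := div_le_div_of_nonneg_right h1 hl0.le
    linarith
  have h3 : (1 - 1 / (l : ℝ)) / (1 - 1 / (l : ℝ)) ^ (r + 1) = ((1 - 1 / (l : ℝ))⁻¹) ^ r := by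
    rw [div_eq_iff (by positivity), inv_pow, pow_succ, ← mul_assoc,
      inv_mul_cancel₀ (by positivity), one_mul]
  have h4 : (1 - 1 / (l : ℝ))⁻¹ ≤ Real.exp (2 * (1 / (l : ℝ))) := by
    have h5 : (1 - 1 / (l : ℝ))⁻¹ ≤ 1 + 2 * (1 / (l : ℝ)) := by
      rw [inv_le_comm₀ hq (by positivity), inv_le_iff_one_le_mul₀ (by positivity)]
      have e : (1 - 1 / (l : ℝ)) * (1 + 2 * (1 / (l : ℝ))) = 1 + (1 / l) * (1 - 2 / l) := by ring
      rw [e]
      have h6 : 2 / (l : ℝ) ≤ 1 := by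
        rw [div_le_one hl0]
        exact hl2
      have h7 : 0 ≤ 1 / (l : ℝ) * (1 - 2 / l) := mul_nonneg (by positivity) (by linarith)
      linarith
    have h6 := Real.add_one_le_exp (2 * (1 / (l : ℝ)))
    linarith
  rw [h3] at h2
  refine h2.trans ?_
  calc ((1 - 1 / (l : ℝ))⁻¹) ^ r ≤ (Real.exp (2 * (1 / (l : ℝ)))) ^ r :=
        pow_le_pow_left₀ (by positivity) h4 _
    _ = _ := by
        rw [← Real.exp_nat_mul]
        congr 1
        ring

open Classical in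
/-- the admissible classes modulo the primorial -/
lemma rho_lin (σ : Fin r → ℤ) (X : ℕ) (n : Fin r → ℕ) :
    ((rhoS σ (fun _ => Polynomial.X) X (fun j => (n j : ℤ))).card : ℝ) =
      ∏ p ∈ PH X, ((p : ℝ) - nu σ n p) := by
  have h := Pool.Agent.H373R2.T7.crt_card (fun p a => ¬ (a = 0 ∨
    ∃ j, (p : ℤ) ∣ (n j : ℤ) + σ j * (a : ℤ))) (PH X) (fun p hp => (mem_filter.1 hp).2)
  have hev : ∀ (p b : ℕ) (j : Fin r), (p : ℤ) ∣ ((n j : ℤ) + σ j * (b : ℤ)) -
      ((n j : ℤ) + σ j * ((b % p : ℕ) : ℤ)) := by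
    intro p b j
    have e1 : (p : ℤ) ∣ (b : ℤ) - ((b % p : ℕ) : ℤ) := by
      push_cast
      exact Int.dvd_self_sub_emod
    have e3 : ((n j : ℤ) + σ j * (b : ℤ)) - ((n j : ℤ) + σ j * ((b % p : ℕ) : ℤ)) =
      σ j * ((b : ℤ) - ((b % p : ℕ) : ℤ)) := by ring
    rw [e3]
    exact e1.mul_left _
  have e1 : rhoS σ (fun _ => Polynomial.X) X (fun j => (n j : ℤ)) =
      (range (∏ p ∈ PH X, p)).filter (fun m => ∀ p ∈ PH X, ¬ (m % p = 0 ∨
        ∃ j, (p : ℤ) ∣ (n j : ℤ) + σ j * ((m % p : ℕ) : ℤ))) := by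
    unfold rhoS
    rw [Wm_eq]
    apply filter_congr
    intro b _
    rw [← Wm_eq]
    simp only [Polynomial.eval_X]
    constructor
    · rintro ⟨h1, h2⟩ p hp
      have hpp := (mem_filter.1 hp).2
      have hpW := (dvd_Wm_iff X p hpp).2 hp
      rintro (h3 | ⟨j, h3⟩)
      · have h4 : p ∣ b := Nat.dvd_of_mod_eq_zero h3
        have h5 := Nat.dvd_gcd h4 hpW
        rw [h1] at h5
        exact hpp.one_lt.ne' (Nat.dvd_one.1 h5)
      · apply h2 j p hpp hpW
        exact (Int.dvd_iff_dvd_of_dvd_sub (hev p b j)).2 h3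
    · intro h1
      constructor
      · rw [Nat.coprime_iff_gcd_eq_one]
        by_contra hcon
        obtain ⟨l, hl, hlg⟩ := Nat.exists_prime_and_dvd hcon
        have h2 : l ∣ b := hlg.trans (Nat.gcd_dvd_left _ _)
        have h3 : l ∣ Wm X := hlg.trans (Nat.gcd_dvd_right _ _)
        exact h1 l ((dvd_Wm_iff X l hl).1 h3) (Or.inl (Nat.mod_eq_zero_of_dvd h2))
      · intro j l hl hlW hd
        apply h1 l ((dvd_Wm_iff X l hl).1 hlW)
        exact Or.inr ⟨j, (Int.dvd_iff_dvd_of_dvd_sub (hev l b j)).1 hd⟩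
  rw [e1, h]
  push_cast
  apply prod_congr rfl
  intro p _
  have h5 := card_filter_add_card_filter_not (s := range p)
    (fun a : ℕ => a = 0 ∨ ∃ j, (p : ℤ) ∣ (n j : ℤ) + σ j * (a : ℤ))
  rw [card_range] at h5
  have h6 : ((range p).filter (fun a : ℕ => a = 0 ∨ ∃ j, (p : ℤ) ∣ (n j : ℤ) + σ j * (a : ℤ))).card =
    nu σ n p := by
    unfold nu
    rfl
  rw [h6] at h5
  have h7 : (nu σ n p : ℝ) + (((range p).filter (fun a : ℕ => ¬ (a = 0 ∨
    ∃ j, (p : ℤ) ∣ (n j : ℤ) + σ j * (a : ℤ)))).card : ℝ) = p := by exact_mod_cast h5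
  linarith

/-- the truncated singular series -/
lemma sing_eq (σ : Fin r → ℤ) (X : ℕ) (n : Fin r → ℕ) :
    sing σ n (HH X) = ((rhoS σ (fun _ => Polynomial.X) X (fun j => (n j : ℤ))).card : ℝ) *
      ((Wm X : ℝ) ^ r / (Nat.totient (Wm X) : ℝ) ^ (r + 1)) := by
  rw [rho_lin, phi_Wm, Wm_eq]
  unfold sing
  have e0 : (range (HH X + 1)).filter Nat.Prime = PH X := rfl
  rw [e0]
  push_cast
  rw [← prod_pow, ← prod_pow, ← prod_div_distrib, ← prod_mul_distrib]
  apply prod_congr rfl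
  intro p hp
  have hpp := (mem_filter.1 hp).2
  have hp0 : (0 : ℝ) < p := by exact_mod_cast hpp.pos
  have hp1 : (1 : ℝ) < p := by exact_mod_cast hpp.one_lt
  have hp2 : (p : ℝ) - 1 ≠ 0 := by linarith
  unfold fac
  have e1 : 1 - 1 / (p : ℝ) = (p - 1) / p := by field_simp
  have e2 : 1 - (nu σ n p : ℝ) / p = (p - nu σ n p) / p := by field_simp
  rw [e1, e2, div_pow, pow_succ (p : ℝ) r]
  field_simp

end Pool.Agent.U215.Sim
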