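import Pool.Agent.U215.Sim.Tail

/-!
Systems of linear forms `n_j ± p` at the isolated primes `p`: the right order of magnitude, with the
singular series, for almost all vectors of constant terms.
-/

set_option autoImplicit false

open Finset Filter Topology

namespace Pool.Agent.U215.Sim

open Pool.Agent.H361R2.PP
open Pool.Agent.TH882.IS
open Pool.Agent.TH882.PC (wX wX_one wX_pos)

variable {r : ℕ}

open Classical in
/-- the isolated primes `p` below the minimum of the `n_j` for which all `n_j ± p` are prime -/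
noncomputable def Reps (σ : Fin r → ℤ) (Λ : ℝ) (n : Fin r → ℕ) : Finset ℕ :=
  (range (⨅ j, n j)).filter (fun p => p.Prime ∧ (∀ j, ((n j : ℤ) + σ j * p).toNat.Prime) ∧
    Isol (Λ * Real.log ((⨅ j, n j : ℕ) : ℝ)) p)

lemma scale (hr : 1 ≤ r) (Λ : ℝ) (hΛ : 0 < Λ) : ∃ c1 : ℝ, 0 < c1 ∧ ∀ σ : Fin r → ℤ,
    (∀ j, σ j = 1 ∨ σ j = -1) → ∀ (κ : ℕ) (η : ℝ), 0 < η → ∃ X₀ : ℕ, ∀ X : ℕ, X₀ ≤ X →
    ∃ Bd : Finset (Fin r → ℕ), (Bd.card : ℝ) ≤ η * (X : ℝ) ^ r ∧
      ∀ n : Fin r → ℕ, (∀ j, 4 * X ≤ n j) → (∀ j, n j < κ * X) → (⨅ j, n j) < 8 * X → n ∉ Bd →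
        c1 * (sing σ n (HH X) * (X / Real.log X ^ (r + 1))) ≤ ((Reps σ Λ n).card : ℝ) := by
  classical
  obtain ⟨c0, hc0, X00, hX00⟩ := isoD (2 * Λ) (by positivity)
  have hr0 : (0 : ℝ) < (r : ℝ) + 1 := by positivity
  refine ⟨c0 / (8 * ((r : ℝ) + 1) ^ r), by positivity, ?_⟩
  intro σ hσ κ η hη
  have hne : Nonempty (Fin r) := ⟨⟨0, by omega⟩⟩
  have hDn : ∀ X, X00 ≤ X → Dn (IP (2 * Λ)) c0 X := by
    intro X hX b hb hbc
    refine ⟨?_, hX00 X hX b hb hbc⟩
    intro n hn
    unfold IP at hn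
    rw [mem_filter] at hn ⊢
    exact ⟨hn.1, hn.2.1⟩
  obtain ⟨X1, h1⟩ := clsT σ hσ (fun _ => Polynomial.X) (fun _ => by simp) (fun _ => by simp)
    (κ + 7) η hη c0 hc0 (IP (2 * Λ)) X00 hDn
  refine ⟨max X1 16, ?_⟩
  intro X hX
  have hX1 : X1 ≤ X := by omega
  have hX16 : 16 ≤ X := by omega
  have hXr : (16 : ℝ) ≤ X := by exact_mod_cast hX16
  have hX0 : (0 : ℝ) < X := by linarith
  set Y : Fin r → ℕ := fun j => if σ j = 1 then 3 * X else 0 with hY
  have hYle : ∀ j, Y j ≤ 3 * X := by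
    intro j
    rw [hY]
    simp only
    split_ifs <;> omega
  obtain ⟨Bd, hB1, hB2⟩ := h1 X hX1 Y (fun _ => 3 * X + 1) (fun _ => (κ + 7) * X) (by
      intro j n hn1 hn2
      rw [Polynomial.eval_X, hY]
      simp only
      rcases hσ j with h | h
      · rw [h, if_pos rfl]
        push_cast
        omega
      · rw [h, if_neg (by norm_num)]
        push_cast
        omega) (fun j => by have := hYle j; omega) (fun _ => by nlinarith) (fun _ => by simp)
  refine ⟨Bd.image (fun N => fun j => N j - Y j), ?_, ?_⟩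
  · have e1 : ((Bd.image (fun N => fun j => N j - Y j)).card : ℝ) ≤ (Bd.card : ℝ) := by
      exact_mod_cast card_image_le
    refine (e1.trans hB1).trans (le_of_eq ?_)
    simp
  intro n hn4 hnκ hm8 hnB
  have hNB : (fun j => n j + Y j) ∉ Bd := by
    intro h
    apply hnB
    rw [mem_image]
    refine ⟨_, h, ?_⟩
    funext j
    simp
  have h2 := hB2 (fun j => n j + Y j) (by
    rw [Fintype.mem_piFinset]
    intro j
    rw [mem_Ico]
    have e1 := hn4 j
    have e2 := hnκ j
    have e3 := hYle j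
    constructor
    · omega
    · nlinarith) hNB
  have e5 : (fun j => (((n j + Y j : ℕ) : ℤ)) - (Y j : ℤ)) = fun j => (n j : ℤ) := by
    funext j
    push_cast
    ring
  rw [e5] at h2
  set m : ℕ := ⨅ j, n j with hm
  have hm4 : 4 * X ≤ m := le_ciInf hn4
  have hmn : ∀ j, m ≤ n j := fun j => ciInf_le (OrderBot.bddBelow _) j
  have hm0 : (0 : ℝ) < m := by
    have : 0 < m := by omega
    exact_mod_cast this
  have hm8' : (m : ℝ) ≤ 8 * X := by
    have : m ≤ 8 * X := by omega
    exact_mod_cast this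
  set ℓ := Real.log X with hℓ
  have hℓ1 : 1 ≤ ℓ := by
    rw [hℓ, Real.le_log_iff_exp_le hX0]
    have := Real.exp_one_lt_d9
    linarith
  have hlm : Real.log m ≤ 2 * ℓ := by
    calc Real.log m ≤ Real.log ((X : ℝ) ^ 2) := by
          apply Real.log_le_log hm0
          nlinarith
      _ = 2 * ℓ := by
          rw [Real.log_pow]
          push_cast
          ring
  have h3 : ((RepA σ (fun _ => Polynomial.X) (IP (2 * Λ)) X (fun j => (n j : ℤ))).card : ℝ) ≤
      ((Reps σ Λ n).card : ℝ) := by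
    apply Nat.cast_le.2
    apply card_le_card
    intro p hp
    unfold RepA at hp
    rw [mem_filter, mem_Ico] at hp
    obtain ⟨⟨g1, g2⟩, g3, g4⟩ := hp
    unfold IP at g3
    rw [mem_filter] at g3
    unfold Reps
    rw [mem_filter, mem_range]
    refine ⟨by omega, g3.2.1, ?_, ?_⟩
    · intro j
      have e1 := g4 j
      rwa [Polynomial.eval_X] at e1
    · intro q hq h5 h6
      rw [← hm] at h5 h6
      have e1 : Λ * Real.log m ≤ 2 * Λ * ℓ := by nlinarith
      exact g3.2.2 q hq (by linarith) (by linarith)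
  refine le_trans (le_of_eq ?_) (h2.trans h3)
  have hφ0 : (0 : ℝ) < Nat.totient (Wm X) := by exact_mod_cast Nat.totient_pos.2 (Wm_pos X)
  have hs1 : ((∑ _j : Fin r, (Polynomial.X : Polynomial ℤ).natDegree : ℕ) : ℝ) = r := by simp
  rw [hs1, sing_eq]
  unfold wX
  have hℓ0 : ℓ ≠ 0 := by linarith
  rw [div_pow, mul_pow, pow_succ ℓ r, pow_succ ((Nat.totient (Wm X) : ℕ) : ℝ) r]
  field_simp
  ring

/-- the singular series -/
noncomputable def SS (σ : Fin r → ℤ) (n : Fin r → ℕ) : ℝ := limsup (fun y => sing σ n y) atTop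

lemma sing_nonneg (σ : Fin r → ℤ) (n : Fin r → ℕ) (y : ℕ) : 0 ≤ sing σ n y := by
  unfold sing
  apply prod_nonneg
  intro l hl
  exact fac_nonneg σ n l (mem_filter.1 hl).2

lemma SS_le (σ : Fin r → ℤ) (hσ : ∀ j, σ j = 1 ∨ σ j = -1) (n : Fin r → ℕ) (hn : ∀ j, n j ≠ 0)
    (H : ℕ) (hg : Good σ H n) : SS σ n ≤ Real.exp (r * (r + r ^ 2)) * sing σ n H := by
  unfold SS
  apply limsup_le_of_le
  · exact isCoboundedUnder_le_of_le atTop (x := 0) (fun y => sing_nonneg σ n y)
  · filter_upwards [eventually_ge_atTop H] with y hy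
    exact sing_late σ hσ n hn H y hy hg

open Classical in
/-- **Main theorem.** -/
theorem sim (hr : 1 ≤ r) (Λ : ℝ) (hΛ : 0 < Λ) : ∃ c : ℝ, 0 < c ∧ ∀ σ : Fin r → ℤ,
    (∀ j, σ j = 1 ∨ σ j = -1) →
    Tendsto (fun x : ℕ => (((Fintype.piFinset (fun _ : Fin r => Icc 1 x)).filter (fun n =>
      ((Reps σ Λ n).card : ℝ) < c * (SS σ n * (((⨅ j, n j : ℕ) : ℝ) /
        Real.log ((⨅ j, n j : ℕ) : ℝ) ^ (r + 1))))).card : ℝ) / (x : ℝ) ^ r) atTop (𝓝 0) := by
  obtain ⟨c1, hc1, h1⟩ := scale hr Λ hΛ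
  set EE : ℝ := Real.exp (r * (r + r ^ 2)) with hEE
  have hEE0 : 0 < EE := Real.exp_pos _
  refine ⟨c1 / (8 * EE), by positivity, ?_⟩
  intro σ hσ
  have hne : Nonempty (Fin r) := ⟨⟨0, by omega⟩⟩
  have key : ∀ ε : ℝ, 0 < ε → ∃ x₀ : ℕ, ∀ x : ℕ, x₀ ≤ x →
      (((Fintype.piFinset (fun _ : Fin r => Icc 1 x)).filter (fun n =>
      ((Reps σ Λ n).card : ℝ) < c1 / (8 * EE) * (SS σ n * (((⨅ j, n j : ℕ) : ℝ) /
        Real.log ((⨅ j, n j : ℕ) : ℝ) ^ (r + 1))))).card : ℝ) ≤ ε * (x : ℝ) ^ r := by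
    intro ε hε
    obtain ⟨D, hD⟩ := exists_nat_gt (2 * r / ε)
    set η : ℝ := ε / (4 * (D + 2)) with hη
    have hη0 : 0 < η := by positivity
    obtain ⟨X0, h2⟩ := h1 σ hσ (2 ^ (D + 3)) η hη0
    obtain ⟨X3, hHH⟩ := eventually_atTop.1 (Pool.Agent.TH882.UB.HH_tendsto.eventually_ge_atTop
      (⌈32 * (r + r ^ 2 : ℝ) / η⌉₊ + 2))
    obtain ⟨x1, hx1⟩ := exists_nat_gt (4 * (r + r ^ 2 : ℝ) / η)
    refine ⟨2 ^ (D + 2) * (max X0 (max X3 16)) + x1 + 1, ?_⟩
    intro x hx
    set u : ℕ := x / 2 ^ (D + 2) with hu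
    have hDpos : 0 < 2 ^ (D + 2) := by positivity
    have hu1 : max X0 (max X3 16) ≤ u := by
      rw [hu, Nat.le_div_iff_mul_le hDpos]
      nlinarith
    have hux : u * 2 ^ (D + 2) ≤ x := Nat.div_mul_le_self _ _
    have hxu : x < (u + 1) * 2 ^ (D + 2) := by
      rw [hu]
      exact Nat.lt_div_mul_add hDpos |>.trans_le (by rw [add_mul, one_mul])
    have hu2 : (u + 1) * 2 ^ (D + 2) ≤ 2 * (2 ^ (D + 2) * u) := by
      have e1 : (u + 1) * 2 ^ (D + 2) ≤ (2 * u) * 2 ^ (D + 2) := Nat.mul_le_mul_right _ (by omega)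
      have e2 : 2 * (2 ^ (D + 2) * u) = (2 * u) * 2 ^ (D + 2) := by ring
      omega
    have hx0 : (0 : ℝ) < x := by
      have : 0 < x := by omega
      exact_mod_cast this
    set B := Fintype.piFinset (fun _ : Fin r => Icc 1 x) with hB
    choose! Bd hBd1 hBd2 using h2
    set A : Fin r → Finset (Fin r → ℕ) := fun j => B.filter (fun n => n j < 4 * u) with hA
    set G : ℕ → Finset (Fin r → ℕ) := fun i => B.filter (fun n => ¬ Good σ (HH (2 ^ i * u)) n) with hG
    have hXi : ∀ i, max X0 (max X3 16) ≤ 2 ^ i * u := by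
      intro i
      have : 1 ≤ 2 ^ i := Nat.one_le_two_pow
      nlinarith
    have hXx : ∀ i, i < D + 2 → 2 ^ i * u ≤ x := by
      intro i hi
      have : 2 ^ i ≤ 2 ^ (D + 2) := Nat.pow_le_pow_right (by norm_num) (by omega)
      nlinarith
    have hsub : B.filter (fun n => ((Reps σ Λ n).card : ℝ) < c1 / (8 * EE) *
        (SS σ n * (((⨅ j, n j : ℕ) : ℝ) / Real.log ((⨅ j, n j : ℕ) : ℝ) ^ (r + 1)))) ⊆
        (univ.biUnion A) ∪ ((range (D + 2)).biUnion (fun i => Bd (2 ^ i * u)) ∪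
          (range (D + 2)).biUnion G) := by
      intro n hn
      rw [mem_filter] at hn
      obtain ⟨hnB, hnl⟩ := hn
      rw [mem_union, mem_union, mem_biUnion, mem_biUnion, mem_biUnion]
      by_contra hcon
      rw [not_or, not_or] at hcon
      obtain ⟨hcA, hcB, hcG⟩ := hcon
      have hnB' := hnB
      rw [hB, Fintype.mem_piFinset] at hnB'
      have hn4 : ∀ j, 4 * u ≤ n j := by
        intro j
        by_contra h
        push Not at h
        exact hcA ⟨j, mem_univ j, mem_filter.2 ⟨hnB, h⟩⟩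
      set m : ℕ := ⨅ j, n j with hm
      have hm4 : 4 * u ≤ m := le_ciInf hn4
      have hmn : ∀ j, m ≤ n j := fun j => ciInf_le (OrderBot.bddBelow _) j
      have hmx : m ≤ x := (hmn (Classical.arbitrary _)).trans (mem_Icc.1 (hnB' _)).2
      have hu0 : 0 < 4 * u := by omega
      set q : ℕ := m / (4 * u) with hq
      have hq1 : 1 ≤ q := by
        rw [hq, Nat.le_div_iff_mul_le hu0]
        omega
      set i : ℕ := Nat.log 2 q with hi
      have hi1 : 2 ^ i ≤ q := Nat.pow_log_le_self 2 (by omega)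
      have hi2 : q < 2 ^ (i + 1) := Nat.lt_pow_succ_log_self (by norm_num) q
      have hqm : q * (4 * u) ≤ m := Nat.div_mul_le_self _ _
      have hmq : m < (q + 1) * (4 * u) := by
        rw [hq]
        exact Nat.lt_div_mul_add hu0 |>.trans_le (by rw [add_mul, one_mul])
      have hm5 : 4 * (2 ^ i * u) ≤ m := by nlinarith
      have hm6 : m < 8 * (2 ^ i * u) := by
        have e1 : q + 1 ≤ 2 ^ (i + 1) := hi2
        have e2 : (q + 1) * (4 * u) ≤ 2 ^ (i + 1) * (4 * u) := Nat.mul_le_mul_right _ e1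
        rw [pow_succ] at e2
        nlinarith
      have hiD : i < D + 2 := by
        by_contra h
        push Not at h
        have e1 : 2 ^ (D + 2) ≤ 2 ^ i := Nat.pow_le_pow_right (by norm_num) h
        have e2 : 2 ^ (D + 2) * u ≤ 2 ^ i * u := Nat.mul_le_mul_right _ e1
        have e3 : (u + 1) * 2 ^ (D + 2) ≤ 2 * (2 ^ (D + 2) * u) := hu2
        omega
      have hXi' := hXi i
      have e1 := hBd2 (2 ^ i * u) (by omega) n (fun j => hm5.trans (hmn j)) (fun j => by
        have e2 := (mem_Icc.1 (hnB' j)).2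
        have e3 : x < 2 ^ (D + 3) * u := by
          have e4 : (u + 1) * 2 ^ (D + 2) ≤ 2 * (2 ^ (D + 2) * u) := hu2
          have e5 : 2 ^ (D + 3) * u = 2 * (2 ^ (D + 2) * u) := by ring
          omega
        have e4 : 1 ≤ 2 ^ i := Nat.one_le_two_pow
        have e5 : 2 ^ (D + 3) * u ≤ 2 ^ (D + 3) * (2 ^ i * u) :=
          Nat.mul_le_mul_left _ (by nlinarith)
        omega) hm6 (fun h => hcB ⟨i, mem_range.2 hiD, h⟩)
      have hgood : Good σ (HH (2 ^ i * u)) n := by
        by_contra h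
        exact hcG ⟨i, mem_range.2 hiD, mem_filter.2 ⟨hnB, h⟩⟩
      have e2 := SS_le σ hσ n (fun j => by have := hn4 j; omega) _ hgood
      set X := 2 ^ i * u with hX
      have hX16 : (16 : ℝ) ≤ X := by
        have : 16 ≤ X := by omega
        exact_mod_cast this
      have hX0 : (0 : ℝ) < X := by linarith
      have hℓ1 : 1 ≤ Real.log X := by
        rw [Real.le_log_iff_exp_le hX0]
        have := Real.exp_one_lt_d9
        linarith
      have hXm : (X : ℝ) ≤ m := by
        have : X ≤ m := by omega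
        exact_mod_cast this
      have hm8 : (m : ℝ) ≤ 8 * X := by
        have : m ≤ 8 * X := by omega
        exact_mod_cast this
      have hl := Real.log_le_log hX0 hXm
      have e3 : (m : ℝ) / Real.log m ^ (r + 1) ≤ 8 * X / Real.log X ^ (r + 1) :=
        div_le_div₀ (by positivity) hm8 (by positivity) (pow_le_pow_left₀ (by linarith) hl _)
      have hs0 := sing_nonneg σ n (HH X)
      have e4 : SS σ n * (m / Real.log m ^ (r + 1)) ≤
          (EE * sing σ n (HH X)) * (8 * X / Real.log X ^ (r + 1)) := by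
        apply mul_le_mul e2 e3 _ (by positivity)
        have : 0 ≤ Real.log m := by linarith
        positivity
      have e5 : c1 / (8 * EE) * (SS σ n * (m / Real.log m ^ (r + 1))) ≤
          c1 * (sing σ n (HH X) * (X / Real.log X ^ (r + 1))) := by
        calc _ ≤ c1 / (8 * EE) * ((EE * sing σ n (HH X)) * (8 * X / Real.log X ^ (r + 1))) :=
              mul_le_mul_of_nonneg_left e4 (by positivity)
          _ = _ := by
              field_simp
      linarith
    -- counting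
    have hxr : (0 : ℝ) < (x : ℝ) ^ r := by positivity
    have cA : ∀ j, ((A j).card : ℝ) ≤ 1 / 2 ^ D * (x : ℝ) ^ r := by
      intro j
      have e1 := coord j x (4 * u) (A j) (filter_subset _ _) (fun b _ => by
        have e2 : (Icc 1 x).filter (fun a => Function.update b j a ∈ A j) ⊆ range (4 * u) := by
          intro a ha
          have e3 := (mem_filter.1 (mem_filter.1 ha).2).2
          rw [Function.update_self] at e3
          exact mem_range.2 e3
        refine (card_le_card e2).trans (le_of_eq (card_range _)))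
      have e2 : ((A j).card : ℝ) * x ≤ (4 * u : ℕ) * (x : ℝ) ^ r := by exact_mod_cast e1
      have e3 : ((4 * u : ℕ) : ℝ) * 2 ^ D ≤ x := by
        have : 4 * u * 2 ^ D ≤ x := by
          have e4 : 4 * u * 2 ^ D = u * 2 ^ (D + 2) := by ring
          omega
        exact_mod_cast this
      have e4 : ((4 * u : ℕ) : ℝ) ≤ x * (1 / 2 ^ D) := by
        rw [mul_one_div, le_div_iff₀ (by positivity)]
        exact e3
      have e5 : ((A j).card : ℝ) * x ≤ (1 / 2 ^ D * (x : ℝ) ^ r) * x := by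
        refine e2.trans ?_
        calc _ ≤ (x * (1 / 2 ^ D)) * (x : ℝ) ^ r := mul_le_mul_of_nonneg_right e4 hxr.le
          _ = _ := by ring
      exact le_of_mul_le_mul_right e5 hx0
    have cB : ∀ i ∈ range (D + 2), ((Bd (2 ^ i * u)).card : ℝ) ≤ η * (x : ℝ) ^ r := by
      intro i hi
      have e0 := hXi i
      have e1 := hBd1 (2 ^ i * u) (by omega)
      refine e1.trans ?_
      apply mul_le_mul_of_nonneg_left _ hη0.le
      apply pow_le_pow_left₀ (by positivity)
      exact_mod_cast hXx i (mem_range.1 hi)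
    have cG : ∀ i ∈ range (D + 2), ((G i).card : ℝ) ≤ η * (x : ℝ) ^ r := by
      intro i hi
      have e0 := hXi i
      have e1 := hHH (2 ^ i * u) (by omega)
      set H := HH (2 ^ i * u) with hH
      have hH1 : 1 ≤ H := by omega
      have hH0 : (0 : ℝ) < H := by exact_mod_cast hH1
      have e2 := bad_few σ hσ H x hH1 (by omega)
      have e3 : 32 * (r + r ^ 2 : ℝ) / η ≤ H := by
        have e4 : (⌈32 * (r + r ^ 2 : ℝ) / η⌉₊ : ℝ) ≤ H := by
          have : ⌈32 * (r + r ^ 2 : ℝ) / η⌉₊ ≤ H := by omega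
          exact_mod_cast this
        exact (Nat.le_ceil _).trans e4
      have e4 : 4 * (r + r ^ 2 : ℝ) / η ≤ x := by
        refine hx1.le.trans ?_
        have : x1 ≤ x := by omega
        exact_mod_cast this
      rw [div_le_iff₀ hη0] at e3 e4
      have e5 : (r + r ^ 2 : ℝ) * (2 + 16 * x / H) ≤ η * x := by
        have e6 : (r + r ^ 2 : ℝ) * (16 * x / H) ≤ η / 2 * x := by
          have e7 : (r + r ^ 2 : ℝ) * (16 * x / H) = ((r + r ^ 2 : ℝ) * 16 / H) * x := by ring
          rw [e7]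
          apply mul_le_mul_of_nonneg_right _ hx0.le
          rw [div_le_iff₀ hH0]
          linarith
        have e8 : (r + r ^ 2 : ℝ) * 2 ≤ η / 2 * x := by linarith
        calc (r + r ^ 2 : ℝ) * (2 + 16 * x / H) =
            (r + r ^ 2 : ℝ) * 2 + (r + r ^ 2 : ℝ) * (16 * x / H) := by ring
          _ ≤ _ := by linarith
      have e6 : ((G i).card : ℝ) * x ≤ (η * (x : ℝ) ^ r) * x := by
        refine (le_trans e2 (mul_le_mul_of_nonneg_right e5 hxr.le)).trans (le_of_eq ?_)
        ring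
      exact le_of_mul_le_mul_right e6 hx0
    have hc := card_le_card hsub
    have hc2 : (((univ.biUnion A) ∪ ((range (D + 2)).biUnion (fun i => Bd (2 ^ i * u)) ∪
          (range (D + 2)).biUnion G)).card : ℝ) ≤ ∑ j, ((A j).card : ℝ) +
          (∑ i ∈ range (D + 2), ((Bd (2 ^ i * u)).card : ℝ) +
            ∑ i ∈ range (D + 2), ((G i).card : ℝ)) := by
      have e1 := card_union_le (univ.biUnion A) ((range (D + 2)).biUnion (fun i => Bd (2 ^ i * u)) ∪
          (range (D + 2)).biUnion G)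
      have e2 := card_union_le ((range (D + 2)).biUnion (fun i => Bd (2 ^ i * u)))
          ((range (D + 2)).biUnion G)
      have e3 : (univ.biUnion A).card ≤ ∑ j, (A j).card := card_biUnion_le
      have e4 : ((range (D + 2)).biUnion (fun i => Bd (2 ^ i * u))).card ≤
          ∑ i ∈ range (D + 2), (Bd (2 ^ i * u)).card := card_biUnion_le
      have e5 : ((range (D + 2)).biUnion G).card ≤ ∑ i ∈ range (D + 2), (G i).card :=
        card_biUnion_le
      have e6 := e1.trans (Nat.add_le_add e3 (e2.trans (Nat.add_le_add e4 e5)))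
      exact_mod_cast e6
    have s1 : ∑ j, ((A j).card : ℝ) ≤ r * (1 / 2 ^ D * (x : ℝ) ^ r) := by
      refine (sum_le_sum fun j _ => cA j).trans (le_of_eq ?_)
      simp
    have s2 : ∑ i ∈ range (D + 2), ((Bd (2 ^ i * u)).card : ℝ) ≤ (D + 2) * (η * (x : ℝ) ^ r) := by
      refine (sum_le_sum cB).trans (le_of_eq ?_)
      simp
    have s3 : ∑ i ∈ range (D + 2), ((G i).card : ℝ) ≤ (D + 2) * (η * (x : ℝ) ^ r) := by
      refine (sum_le_sum cG).trans (le_of_eq ?_)
      simp
    have s4 : r * (1 / 2 ^ D * (x : ℝ) ^ r) ≤ ε / 2 * (x : ℝ) ^ r := by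
      rw [← mul_assoc]
      apply mul_le_mul_of_nonneg_right _ hxr.le
      rw [div_lt_iff₀ hε] at hD
      have e1 : (D : ℝ) ≤ 2 ^ D := by exact_mod_cast Nat.lt_two_pow_self.le
      rw [mul_one_div, div_le_iff₀ (by positivity)]
      nlinarith
    have s5 : (D + 2) * (η * (x : ℝ) ^ r) = ε / 4 * (x : ℝ) ^ r := by
      rw [hη]
      field_simp
    have hc' := (Nat.cast_le (α := ℝ)).2 hc
    rw [s5] at s2 s3
    calc _ ≤ _ := hc'
      _ ≤ _ := hc2
      _ ≤ ε / 2 * (x : ℝ) ^ r + (ε / 4 * (x : ℝ) ^ r + ε / 4 * (x : ℝ) ^ r) := by linarith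
      _ = _ := by ring
  rw [Metric.tendsto_atTop]
  intro ε hε
  obtain ⟨x0, hx0⟩ := key (ε / 2) (by positivity)
  refine ⟨x0 + 1, fun x hx => ?_⟩
  have hxp : (0 : ℝ) < x := by
    have : 0 < x := by omega
    exact_mod_cast this
  rw [Real.dist_eq, sub_zero, abs_of_nonneg (by positivity), div_lt_iff₀ (by positivity)]
  have h3 := hx0 x (by omega)
  have h4 : (0 : ℝ) < (x : ℝ) ^ r := by positivity
  refine lt_of_le_of_lt h3 ?_
  nlinarith

end Pool.Agent.U215.Sim
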