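import Pool.Agent.U215.Sim.Loc

/-!
All late partial products of the singular series are at most a constant times the truncated one, for
almost all vectors of constant terms.
-/

set_option autoImplicit false

open Finset Filter Topology

namespace Pool.Agent.U215.Sim

open Pool.Agent.H361R2.PP
open Pool.Agent.TH882.IS

variable {r : ℕ}

/-- the numbers and differences with few large prime factors -/
def Good (σ : Fin r → ℤ) (H : ℕ) (n : Fin r → ℕ) : Prop :=
  (∀ j, tl H (n j) ≤ 1 / 4) ∧ ∀ i j, i ≠ j → σ i * n i - σ j * n j ≠ 0 ∧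
    tl H (σ i * n i - σ j * n j).natAbs ≤ 1 / 4

lemma tl_bound (H y D : ℕ) (hD : D ≠ 0) :
    ∑ l ∈ (range (y + 1)).filter (fun l => l.Prime ∧ H < l), (if l ∣ D then 1 / (l : ℝ) else 0) ≤
      tl H D := by
  unfold tl
  rw [← sum_filter]
  apply sum_le_sum_of_subset_of_nonneg
  · intro l hl
    rw [mem_filter, mem_filter] at hl
    rw [mem_filter, Nat.mem_primeFactors]
    exact ⟨⟨hl.1.2.1, hl.2, hD⟩, hl.1.2.2⟩
  · intro l _ _
    positivity

/-- the late partial products -/
lemma sing_late (σ : Fin r → ℤ) (hσ : ∀ j, σ j = 1 ∨ σ j = -1) (n : Fin r → ℕ) (hn : ∀ j, n j ≠ 0)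
    (H y : ℕ) (hy : H ≤ y) (hg : Good σ H n) :
    sing σ n y ≤ Real.exp (r * (r + r ^ 2)) * sing σ n H := by
  classical
  have h0 : sing σ n y = sing σ n H *
      ∏ l ∈ (range (y + 1)).filter (fun l => l.Prime ∧ H < l), fac σ n l := by
    unfold sing
    rw [← prod_union]
    · congr 1
      ext l
      rw [mem_union, mem_filter, mem_filter, mem_filter, mem_range, mem_range]
      constructor
      · rintro ⟨h1, h2⟩
        by_cases h : H < l
        · exact Or.inr ⟨h1, h2, h⟩
        · exact Or.inl ⟨by omega, h2⟩
      · rintro (⟨h1, h2⟩ | ⟨h1, h2, -⟩)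
        · exact ⟨by omega, h2⟩
        · exact ⟨h1, h2⟩
    · rw [disjoint_left]
      intro l hl hl2
      rw [mem_filter, mem_range] at hl hl2
      omega
  set T := (range (y + 1)).filter (fun l => l.Prime ∧ H < l) with hT
  set e1 : ℕ → ℝ := fun l => ∑ j, (if l ∣ n j then 1 / (l : ℝ) else 0) with he1
  set e2 : ℕ → ℝ := fun l => ∑ i, ∑ j, if i ≠ j then
    (if l ∣ (σ i * n i - σ j * n j).natAbs then 1 / (l : ℝ) else 0) else 0 with he2
  have hpos1 : ∀ l, 0 ≤ e1 l := by
    intro l
    rw [he1]
    apply sum_nonneg
    intro j _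
    split_ifs <;> positivity
  have hpos2 : ∀ l, 0 ≤ e2 l := by
    intro l
    rw [he2]
    apply sum_nonneg
    intro i _
    apply sum_nonneg
    intro j _
    split_ifs <;> positivity
  have h1 : ∀ l ∈ T, fac σ n l ≤ Real.exp (2 * r * (e1 l + e2 l)) := by
    intro l hl
    rw [hT, mem_filter] at hl
    have hlp := hl.2.1
    by_cases hc : (∀ j, ¬ l ∣ n j) ∧ ∀ i j, i ≠ j → ¬ (l : ℤ) ∣ σ i * n i - σ j * n j
    · refine (fac_le_one σ n l hlp (nu_big σ hσ n l hlp.pos hc.1 hc.2)).trans ?_
      rw [← Real.exp_zero]
      apply Real.exp_le_exp.2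
      have := hpos1 l
      have := hpos2 l
      positivity
    · refine (fac_le_exp σ n l hlp).trans ?_
      apply Real.exp_le_exp.2
      apply mul_le_mul_of_nonneg_left _ (by positivity)
      rw [not_and_or] at hc
      rcases hc with hc | hc
      · push Not at hc
        obtain ⟨j, hj⟩ := hc
        have h2 : 1 / (l : ℝ) ≤ e1 l := by
          rw [he1]
          refine le_trans ?_ (single_le_sum (f := fun j => if l ∣ n j then 1 / (l : ℝ) else 0)
            (fun j _ => ?_) (mem_univ j))
          · rw [if_pos hj]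
          · split_ifs <;> positivity
        have := hpos2 l
        linarith
      · push Not at hc
        obtain ⟨i, j, hij, hd⟩ := hc
        have h2 : 1 / (l : ℝ) ≤ e2 l := by
          rw [he2]
          refine le_trans ?_ (single_le_sum (f := fun i => ∑ j, if i ≠ j then
            (if l ∣ (σ i * n i - σ j * n j).natAbs then 1 / (l : ℝ) else 0) else 0)
            (fun i _ => ?_) (mem_univ i))
          · refine le_trans ?_ (single_le_sum (f := fun j => if i ≠ j then
              (if l ∣ (σ i * n i - σ j * n j).natAbs then 1 / (l : ℝ) else 0) else 0)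
              (fun j _ => ?_) (mem_univ j))
            · rw [if_pos hij, if_pos (Int.natCast_dvd.1 hd)]
            · split_ifs <;> positivity
          · apply sum_nonneg
            intro j _
            split_ifs <;> positivity
        have := hpos1 l
        linarith
  have h2 : ∑ l ∈ T, (e1 l + e2 l) ≤ (r + r ^ 2) / 4 := by
    rw [sum_add_distrib, he1, he2]
    simp only
    rw [Finset.sum_comm]
    have f1 : ∑ j, ∑ l ∈ T, (if l ∣ n j then 1 / (l : ℝ) else 0) ≤ ∑ _j : Fin r, (1 : ℝ) / 4 := by
      apply sum_le_sum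
      intro j _
      exact (tl_bound H y (n j) (hn j)).trans (hg.1 j)
    have f2 : ∑ l ∈ T, ∑ i, ∑ j, (if i ≠ j then
        (if l ∣ (σ i * n i - σ j * n j).natAbs then 1 / (l : ℝ) else 0) else 0) ≤
        ∑ _i : Fin r, ∑ _j : Fin r, (1 : ℝ) / 4 := by
      rw [Finset.sum_comm]
      apply sum_le_sum
      intro i _
      rw [Finset.sum_comm]
      apply sum_le_sum
      intro j _
      by_cases hij : i = j
      · simp only [hij, ne_eq, not_true_eq_false, if_false, sum_const_zero]
        norm_num
      · simp only [ne_eq, hij, not_false_eq_true, if_true]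
        exact (tl_bound H y _ (Int.natAbs_ne_zero.2 (hg.2 i j hij).1)).trans (hg.2 i j hij).2
    simp only [sum_const, card_univ, Fintype.card_fin, nsmul_eq_mul] at f1 f2
    nlinarith
  have h3 : ∏ l ∈ T, fac σ n l ≤ Real.exp (r * (r + r ^ 2)) := by
    calc ∏ l ∈ T, fac σ n l ≤ ∏ l ∈ T, Real.exp (2 * r * (e1 l + e2 l)) := by
          apply Finset.prod_le_prod
          · intro l hl
            rw [hT, mem_filter] at hl
            exact fac_nonneg σ n l hl.2.1
          · exact h1
      _ = Real.exp (2 * r * ∑ l ∈ T, (e1 l + e2 l)) := by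
          rw [← Real.exp_sum, mul_sum]
      _ ≤ _ := by
          apply Real.exp_le_exp.2
          have h4 : 2 * (r : ℝ) * ∑ l ∈ T, (e1 l + e2 l) ≤ 2 * r * ((r + r ^ 2) / 4) :=
            mul_le_mul_of_nonneg_left h2 (by positivity)
          have h5 : (0 : ℝ) ≤ r * (r + r ^ 2) := by positivity
          linarith
  have h4 : 0 ≤ sing σ n H := by
    unfold sing
    apply prod_nonneg
    intro l hl
    exact fac_nonneg σ n l (mem_filter.1 hl).2
  rw [h0, mul_comm]
  exact mul_le_mul_of_nonneg_right h3 h4

open Classical in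
/-- a set of vectors which is small in one coordinate direction -/
lemma coord (i : Fin r) (M K : ℕ) (S : Finset (Fin r → ℕ))
    (hS : S ⊆ Fintype.piFinset (fun _ => Icc 1 M))
    (hK : ∀ b ∈ Fintype.piFinset (fun _ : Fin r => Icc 1 M),
      ((Icc 1 M).filter (fun a => Function.update b i a ∈ S)).card ≤ K) :
    S.card * M ≤ K * M ^ r := by
  by_cases hM : M = 0
  · subst hM
    have : S = ∅ := by
      apply subset_empty.1
      intro n hn
      have h := hS hn
      rw [Fintype.mem_piFinset] at h
      have h2 := h i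
      simp at h2
    simp [this]
  have hM1 : 1 ≤ M := Nat.one_le_iff_ne_zero.2 hM
  have h1 : S.card ≤ K * (S.image (fun n => Function.update n i 1)).card := by
    apply card_le_mul_card_image
    intro b hb
    rw [mem_image] at hb
    obtain ⟨m, hm, rfl⟩ := hb
    have hmB := hS hm
    have hbB : Function.update m i 1 ∈ Fintype.piFinset (fun _ : Fin r => Icc 1 M) := by
      rw [Fintype.mem_piFinset] at hmB ⊢
      intro k
      by_cases hk : k = i
      · subst hk
        rw [Function.update_self, mem_Icc]
        omega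
      · rw [Function.update_of_ne hk]
        exact hmB k
    refine le_trans ?_ (hK _ hbB)
    apply card_le_card_of_injOn (fun n => n i)
    · intro n hn
      have hn' := mem_filter.1 hn
      have hnB := hS hn'.1
      rw [Fintype.mem_piFinset] at hnB
      refine mem_coe.2 (mem_filter.2 ⟨hnB i, ?_⟩)
      have e : Function.update (Function.update m i 1) i (n i) = n := by
        rw [← hn'.2, Function.update_idem, Function.update_eq_self]
      rw [e]
      exact hn'.1
    · intro n hn n' hn' heq
      have h2 := (mem_filter.1 hn).2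
      have h3 := (mem_filter.1 hn').2
      funext k
      by_cases hk : k = i
      · subst hk
        exact heq
      · have h4 := congrFun (h2.trans h3.symm) k
        rwa [Function.update_of_ne hk, Function.update_of_ne hk] at h4
  have h2 : (S.image (fun n => Function.update n i 1)).card * M ≤ M ^ r := by
    have h3 : S.image (fun n => Function.update n i 1) ⊆
        Fintype.piFinset (fun k : Fin r => if k = i then {1} else Icc 1 M) := by
      intro b hb
      rw [mem_image] at hb
      obtain ⟨m, hm, rfl⟩ := hb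
      have hmB := hS hm
      rw [Fintype.mem_piFinset] at hmB ⊢
      intro k
      by_cases hk : k = i
      · subst hk
        rw [Function.update_self, if_pos rfl]
        exact mem_singleton_self _
      · rw [Function.update_of_ne hk, if_neg hk]
        exact hmB k
    have h4 := card_le_card h3
    rw [Fintype.card_piFinset] at h4
    have h5 : (∏ k : Fin r, (if k = i then ({1} : Finset ℕ) else Icc 1 M).card) * M = M ^ r := by
      rw [← mul_prod_erase univ _ (mem_univ i), if_pos rfl, card_singleton, one_mul]
      have h6 : ∏ k ∈ univ.erase i, (if k = i then ({1} : Finset ℕ) else Icc 1 M).card =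
          ∏ _k ∈ univ.erase i, M := by
        apply prod_congr rfl
        intro k hk
        rw [if_neg (ne_of_mem_erase hk), Nat.card_Icc]
        omega
      have hr : 1 ≤ r := by
        have := i.2
        omega
      rw [h6, prod_const, card_erase_of_mem (mem_univ i), card_univ, Fintype.card_fin, ← pow_succ]
      congr 1
      omega
    calc _ ≤ (∏ k : Fin r, (if k = i then ({1} : Finset ℕ) else Icc 1 M).card) * M :=
          Nat.mul_le_mul_right _ h4
      _ = _ := h5
  calc S.card * M ≤ K * (S.image (fun n => Function.update n i 1)).card * M :=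
        Nat.mul_le_mul_right _ h1
    _ = K * ((S.image (fun n => Function.update n i 1)).card * M) := by ring
    _ ≤ _ := Nat.mul_le_mul_left _ h2

open Classical in
/-- for given `k` few `a` give a difference with many large prime factors -/
lemma diff_few (s t : ℤ) (hs : s = 1 ∨ s = -1) (ht : t = 1 ∨ t = -1) (H M k : ℕ) (hH : 1 ≤ H)
    (hM : 1 ≤ M) (hk : k ≤ M) :
    (((Icc 1 M).filter (fun a : ℕ => s * a - t * k = 0 ∨
      (1 : ℝ) / 4 < tl H (s * a - t * k).natAbs)).card : ℝ) ≤ 1 + 16 * M / H := by
  set B := (Icc 1 (2 * M)).filter (fun N => (1 : ℝ) / 4 < tl H N) with hB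
  have h1 := tail_few H (2 * M) hH
  have h2 : ((Icc 1 M).filter (fun a : ℕ => s * a - t * k = 0 ∨
      (1 : ℝ) / 4 < tl H (s * a - t * k).natAbs)).card ≤ 1 + 2 * B.card := by
    have h3 : (Icc 1 M).filter (fun a : ℕ => s * a - t * k = 0 ∨
        (1 : ℝ) / 4 < tl H (s * a - t * k).natAbs) ⊆
        ((Icc 1 M).filter (fun a : ℕ => s * a - t * k = 0)) ∪
        ((Icc 1 M).filter (fun a : ℕ => (s * a - t * k).natAbs ∈ B)) := by
      intro a ha
      rw [mem_filter] at ha
      rw [mem_union, mem_filter, mem_filter]
      by_cases h0 : s * (a : ℤ) - t * k = 0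
      · exact Or.inl ⟨ha.1, h0⟩
      · right
        refine ⟨ha.1, ?_⟩
        have h4 := ha.2.resolve_left h0
        rw [hB, mem_filter, mem_Icc]
        have h5 := mem_Icc.1 ha.1
        refine ⟨⟨?_, ?_⟩, h4⟩
        · have := Int.natAbs_ne_zero.2 h0
          omega
        · rcases hs with rfl | rfl <;> rcases ht with rfl | rfl <;> omega
    refine (card_le_card h3).trans ((card_union_le _ _).trans (Nat.add_le_add ?_ ?_))
    · rw [card_le_one]
      intro a ha b hb
      have h4 := (mem_filter.1 ha).2
      have h5 := (mem_filter.1 hb).2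
      rcases hs with rfl | rfl <;> omega
    · refine (card_le_mul_card_image (f := fun a : ℕ => (s * (a : ℤ) - t * k).natAbs) _ 2 ?_).trans ?_
      · intro b hb
        rw [mem_image] at hb
        have h4 : (((Icc 1 M).filter (fun a : ℕ => (s * a - t * k).natAbs ∈ B)).filter
            (fun a : ℕ => (s * (a : ℤ) - t * k).natAbs = b)) ⊆
            {(s * (t * k + b)).toNat, (s * (t * k - b)).toNat} := by
          intro a ha
          have h5 := (mem_filter.1 ha).2
          rw [mem_insert, mem_singleton]
          rcases hs with rfl | rfl <;> omega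
        exact (card_le_card h4).trans card_le_two
      · apply Nat.mul_le_mul_left
        apply card_le_card
        intro b hb
        rw [mem_image] at hb
        obtain ⟨a, ha, rfl⟩ := hb
        exact (mem_filter.1 ha).2
  have h3 : (((Icc 1 M).filter (fun a : ℕ => s * a - t * k = 0 ∨
      (1 : ℝ) / 4 < tl H (s * a - t * k).natAbs)).card : ℝ) ≤ 1 + 2 * (B.card : ℝ) := by
    exact_mod_cast h2
  push_cast at h1
  have h4 : 16 * (M : ℝ) / H = 2 * (4 * (2 * M) / H) := by ring
  rw [h4]
  linarith

open Classical in
/-- almost all vectors are good -/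
lemma bad_few (σ : Fin r → ℤ) (hσ : ∀ j, σ j = 1 ∨ σ j = -1) (H M : ℕ) (hH : 1 ≤ H) (hM : 1 ≤ M) :
    (((Fintype.piFinset (fun _ : Fin r => Icc 1 M)).filter (fun n => ¬ Good σ H n)).card : ℝ) * M ≤
      (r + r ^ 2) * (2 + 16 * M / H) * M ^ r := by
  set B := Fintype.piFinset (fun _ : Fin r => Icc 1 M) with hB
  set S1 : Fin r → Finset (Fin r → ℕ) := fun i => B.filter (fun n => (1 : ℝ) / 4 < tl H (n i)) with hS1
  set S2 : Fin r → Fin r → Finset (Fin r → ℕ) := fun i j => B.filter (fun n => i ≠ j ∧
    (σ i * n i - σ j * n j = 0 ∨ (1 : ℝ) / 4 < tl H (σ i * n i - σ j * n j).natAbs)) with hS2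
  set K : ℕ := ⌊(1 : ℝ) + 16 * M / H⌋₊ with hKdef
  have hKle : (K : ℝ) ≤ 1 + 16 * M / H := Nat.floor_le (by positivity)
  have c1 : ∀ i, (S1 i).card * M ≤ K * M ^ r := by
    intro i
    apply coord i M K (S1 i) (filter_subset _ _)
    intro b hb
    apply Nat.le_floor
    have h1 := tail_few H M hH
    have h2 : (((Icc 1 M).filter (fun a => Function.update b i a ∈ S1 i)).card : ℝ) ≤
        (((Icc 1 M).filter (fun N => (1 : ℝ) / 4 < tl H N)).card : ℝ) := by
      apply Nat.cast_le.2
      apply card_le_card
      intro a ha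
      rw [mem_filter] at ha ⊢
      refine ⟨ha.1, ?_⟩
      have h3 := (mem_filter.1 ha.2).2
      rwa [Function.update_self] at h3
    have hH0 : (0 : ℝ) < H := by exact_mod_cast hH
    have h4 : 4 * (M : ℝ) / H ≤ 1 + 16 * M / H := by
      have h5 : 0 ≤ (M : ℝ) / H := by positivity
      have h6 : 4 * (M : ℝ) / H = 4 * (M / H) := by ring
      have h7 : 16 * (M : ℝ) / H = 16 * (M / H) := by ring
      rw [h6, h7]
      linarith
    linarith
  have c2 : ∀ i j, (S2 i j).card * M ≤ K * M ^ r := by
    intro i j
    apply coord i M K (S2 i j) (filter_subset _ _)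
    intro b hb
    by_cases hij : i = j
    · have h1 : (Icc 1 M).filter (fun a => Function.update b i a ∈ S2 i j) = ∅ := by
        apply filter_eq_empty_iff.2
        intro a _ h
        exact (mem_filter.1 h).2.1 hij
      rw [h1, card_empty]
      exact Nat.zero_le _
    · apply Nat.le_floor
      rw [Fintype.mem_piFinset] at hb
      have h1 := diff_few (σ i) (σ j) (hσ i) (hσ j) H M (b j) hH hM (mem_Icc.1 (hb j)).2
      refine le_trans ?_ h1
      apply Nat.cast_le.2
      apply card_le_card
      intro a ha
      rw [mem_filter] at ha ⊢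
      refine ⟨ha.1, ?_⟩
      have h3 := (mem_filter.1 ha.2).2.2
      rwa [Function.update_self, Function.update_of_ne (fun h => hij h.symm)] at h3
  have hsub : B.filter (fun n => ¬ Good σ H n) ⊆
      (univ.biUnion S1) ∪ (univ.biUnion (fun p : Fin r × Fin r => S2 p.1 p.2)) := by
    intro n hn
    rw [mem_filter] at hn
    rw [mem_union, mem_biUnion, mem_biUnion]
    by_contra hcon
    rw [not_or] at hcon
    apply hn.2
    constructor
    · intro j
      by_contra h
      push Not at h
      exact hcon.1 ⟨j, mem_univ j, mem_filter.2 ⟨hn.1, h⟩⟩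
    · intro i j hij
      constructor
      · intro h
        exact hcon.2 ⟨(i, j), mem_univ _, mem_filter.2 ⟨hn.1, hij, Or.inl h⟩⟩
      · by_contra h
        push Not at h
        exact hcon.2 ⟨(i, j), mem_univ _, mem_filter.2 ⟨hn.1, hij, Or.inr h⟩⟩
  have h1 : (B.filter (fun n => ¬ Good σ H n)).card * M ≤ (r + r ^ 2) * (K * M ^ r) := by
    have h2 : (B.filter (fun n => ¬ Good σ H n)).card ≤
        ∑ i, (S1 i).card + ∑ p : Fin r × Fin r, (S2 p.1 p.2).card :=
      (card_le_card hsub).trans ((card_union_le _ _).trans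
        (Nat.add_le_add card_biUnion_le card_biUnion_le))
    calc (B.filter (fun n => ¬ Good σ H n)).card * M ≤
        (∑ i, (S1 i).card + ∑ p : Fin r × Fin r, (S2 p.1 p.2).card) * M := Nat.mul_le_mul_right _ h2
      _ = ∑ i, (S1 i).card * M + ∑ p : Fin r × Fin r, (S2 p.1 p.2).card * M := by
          rw [add_mul, sum_mul, sum_mul]
      _ ≤ ∑ _i : Fin r, K * M ^ r + ∑ _p : Fin r × Fin r, K * M ^ r :=
          Nat.add_le_add (sum_le_sum fun i _ => c1 i) (sum_le_sum fun p _ => c2 p.1 p.2)
      _ = _ := by
          simp only [sum_const, card_univ, Fintype.card_fin, Fintype.card_prod, smul_eq_mul]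
          ring
  have h2 : ((B.filter (fun n => ¬ Good σ H n)).card : ℝ) * M ≤ (r + r ^ 2) * (K * M ^ r) := by
    exact_mod_cast h1
  refine h2.trans ?_
  rw [mul_assoc]
  apply mul_le_mul_of_nonneg_left _ (by positivity)
  apply mul_le_mul_of_nonneg_right _ (by positivity)
  linarith

end Pool.Agent.U215.Sim
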